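import Pool.Agent.Helper14.BSC.Stmts

/-!
# Normal form of one-units modulo `p`-th powers (module ADJ)
-/

set_option autoImplicit false

namespace Pool.Agent.Helper14.BSC

/-- the binomial formula modulo `p` in `ℂ_p` -/
theorem adj_binom {p : ℕ} [Fact p.Prime] (y : ℂ_[p]) (hy : ‖y‖ ≤ 1) :
    ‖(1 + y) ^ p - 1 - y ^ p‖ ≤ (p : ℝ)⁻¹ * ‖y‖ := by
  let O : Subring ℂ_[p] :=
    { carrier := {x | ‖x‖ ≤ 1}
      mul_mem' := by
        intro a b ha hb
        change ‖a * b‖ ≤ 1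
        rw [norm_mul]
        exact mul_le_one₀ ha (norm_nonneg _) hb
      one_mem' := by
        change ‖(1 : ℂ_[p])‖ ≤ 1
        rw [norm_one]
      add_mem' := by
        intro a b ha hb
        exact (IsUltrametricDist.norm_add_le_max a b).trans (max_le ha hb)
      zero_mem' := by
        change ‖(0 : ℂ_[p])‖ ≤ 1
        rw [norm_zero]; norm_num
      neg_mem' := by
        intro a ha
        change ‖-a‖ ≤ 1
        rw [norm_neg]; exact ha }
  obtain ⟨r, hr⟩ := exists_add_pow_prime_eq (Fact.out : p.Prime) (1 : O) (⟨y, hy⟩ : O)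
  have h1 : (1 + y) ^ p = 1 ^ p + y ^ p + p * 1 * y * (r : ℂ_[p]) := by
    have := congrArg (fun z : O => (z : ℂ_[p])) hr
    push_cast at this
    exact this
  have h2 : (1 + y) ^ p - 1 - y ^ p = (p : ℂ_[p]) * y * (r : ℂ_[p]) := by
    rw [h1]; ring
  have h3 : ‖(p : ℂ_[p])‖ = (p : ℝ)⁻¹ := by
    have h := PadicComplex.norm_extends' (p := p) (p : ℚ_[p])
    rw [Padic.norm_p] at h
    rw [← h]
    congr 1
    simp
  have h4 : ‖(r : ℂ_[p])‖ ≤ 1 := r.2
  rw [h2, norm_mul, norm_mul, h3]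
  have : (p : ℝ)⁻¹ * ‖y‖ * ‖(r : ℂ_[p])‖ ≤ (p : ℝ)⁻¹ * ‖y‖ * 1 := by gcongr
  linarith

section

variable {k Ω : Type} [Field k] [Field Ω] [Algebra k Ω] {p : ℕ} [Fact p.Prime]

theorem adj_nm_mul (Lc : Loc k Ω p) (x y : Acl k Ω) : nm Lc (x * y) = nm Lc x * nm Lc y := by
  unfold nm; rw [map_mul, norm_mul]

theorem adj_nm_pow (Lc : Loc k Ω p) (x : Acl k Ω) (n : ℕ) : nm Lc (x ^ n) = nm Lc x ^ n := by
  unfold nm; rw [map_pow, norm_pow]

theorem adj_nm_add (Lc : Loc k Ω p) (x y : Acl k Ω) :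
    nm Lc (x + y) ≤ max (nm Lc x) (nm Lc y) := by
  unfold nm; rw [map_add]; exact IsUltrametricDist.norm_add_le_max _ _

theorem adj_nm_neg (Lc : Loc k Ω p) (x : Acl k Ω) : nm Lc (-x) = nm Lc x := by
  unfold nm; rw [map_neg, norm_neg]

theorem adj_nm_sub (Lc : Loc k Ω p) (x y : Acl k Ω) :
    nm Lc (x - y) ≤ max (nm Lc x) (nm Lc y) := by
  rw [sub_eq_add_neg, ← adj_nm_neg Lc y]; exact adj_nm_add Lc _ _

theorem adj_nm_one (Lc : Loc k Ω p) : nm Lc 1 = 1 := by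
  unfold nm; rw [map_one, norm_one]

theorem adj_nm_zero (Lc : Loc k Ω p) : nm Lc 0 = 0 := by
  unfold nm; rw [map_zero, norm_zero]

theorem adj_nm_nonneg (Lc : Loc k Ω p) (x : Acl k Ω) : 0 ≤ nm Lc x := norm_nonneg _

theorem adj_nm_eq_zero (Lc : Loc k Ω p) {x : Acl k Ω} (h : nm Lc x = 0) : x = 0 := by
  unfold nm at h
  rw [norm_eq_zero] at h
  exact (map_eq_zero _).1 h

/-- one-units have norm one -/
theorem adj_nm_one_add (Lc : Loc k Ω p) {x : Acl k Ω} (h : nm Lc x < 1) : nm Lc (1 + x) = 1 := by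
  apply le_antisymm
  · exact (adj_nm_add Lc _ _).trans (max_le (adj_nm_one Lc).le h.le)
  · by_contra hlt
    push Not at hlt
    have h1 : nm Lc ((1 + x) - x) ≤ max (nm Lc (1 + x)) (nm Lc x) := adj_nm_sub Lc _ _
    rw [add_sub_cancel_right, adj_nm_one] at h1
    exact absurd h1 (not_le.2 (max_lt hlt h))

end

/-- the main step: improve a one-unit whose level is divisible by `p` -/
theorem adj_step (hRES : ST_RESK) (hCYC : ST_CYC) {k Ω : Type} [Field k] [Field Ω] [Algebra k Ω]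
    {p : ℕ} [Fact p.Prime] (Lc : Loc k Ω p) (d : FF Lc.S₁) (i : ℕ) (hi : 0 < i)
    (hd : nm Lc d = nm Lc Lc.π ^ (p * i)) (hl : nm Lc (Lc.ζ - 1) ^ p < nm Lc d) :
    ∃ d₁ g : FF Lc.S₁, nm Lc d₁ < nm Lc d ∧ nm Lc g < 1 ∧ 1 + d = (1 + d₁) * (1 + g) ^ p := by
  have hp : p.Prime := Fact.out
  have hπ0 : 0 < nm Lc Lc.π := Lc.posπ
  have hπ1 : nm Lc Lc.π < 1 := Lc.ltπ
  let π : FF Lc.S₁ := ⟨Lc.π, Lc.memπ⟩
  have hπc : ((π : FF Lc.S₁) : Acl k Ω) = Lc.π := rfl
  have hπne : π ≠ 0 := by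
    intro h
    have : Lc.π = 0 := congrArg Subtype.val h
    rw [this, adj_nm_zero] at hπ0
    exact lt_irrefl _ hπ0
  obtain ⟨κ, _, _, _, ρ, h1, hsur, hker, hadd⟩ := hRES k Ω p Lc
  -- the unit `u`
  let u : FF Lc.S₁ := d / π ^ (p * i)
  have hdu : d = π ^ (p * i) * u := by
    change d = π ^ (p * i) * (d / π ^ (p * i))
    field_simp
  have hnu : nm Lc u = 1 := by
    have h := congrArg (fun z : FF Lc.S₁ => nm Lc z) hdu
    push_cast at h
    rw [adj_nm_mul, adj_nm_pow, hπc, hd] at h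
    have h0 : nm Lc Lc.π ^ (p * i) ≠ 0 := (pow_pos hπ0 _).ne'
    exact (mul_left_cancel₀ h0 (by rw [mul_one]; exact h)).symm
  -- a `p`-th root of `u` in the residue field
  obtain ⟨a, ha⟩ : ∃ a : κ, a ^ p = ρ u := by
    have hinj : Function.Injective (frobenius κ p) := frobenius_inj κ p
    obtain ⟨a, ha⟩ := (Finite.injective_iff_surjective.1 hinj) (ρ u)
    exact ⟨a, ha⟩
  obtain ⟨s, hs1, hsa⟩ := hsur a
  have hpow : ∀ n : ℕ, nm Lc ((s ^ n : FF Lc.S₁) : Acl k Ω) ≤ 1 ∧ ρ (s ^ n) = a ^ n := by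
    intro n
    induction n with
    | zero =>
      refine ⟨?_, ?_⟩
      · rw [pow_zero]; exact (adj_nm_one Lc).le
      · rw [pow_zero, pow_zero]; exact h1
    | succ n ih =>
      refine ⟨?_, ?_⟩
      · rw [pow_succ]
        push_cast
        rw [adj_nm_mul]
        have := ih.1
        push_cast at this
        exact mul_le_one₀ this (adj_nm_nonneg Lc _) hs1
      · rw [pow_succ, pow_succ, (hadd _ _ ih.1 hs1).2, ih.2, hsa]
  have hsp : nm Lc (((u - s ^ p : FF Lc.S₁)) : Acl k Ω) < 1 := by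
    have hint : nm Lc ((u - s ^ p : FF Lc.S₁) : Acl k Ω) ≤ 1 := by
      push_cast
      refine (adj_nm_sub Lc _ _).trans (max_le hnu.le ?_)
      have := (hpow p).1
      push_cast at this
      exact this
    rw [← hker _ hint]
    have e := (hadd _ _ hint (hpow p).1).1
    rw [sub_add_cancel, (hpow p).2, ha] at e
    exact (left_eq_add.1 (by rw [add_comm]; exact e))
  -- the element `g`
  let g : FF Lc.S₁ := π ^ i * s
  have hng : nm Lc g ≤ nm Lc Lc.π ^ i := by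
    change nm Lc ((π ^ i * s : FF Lc.S₁) : Acl k Ω) ≤ _
    push_cast
    rw [adj_nm_mul, adj_nm_pow, hπc]
    calc nm Lc Lc.π ^ i * nm Lc s ≤ nm Lc Lc.π ^ i * 1 := by gcongr
      _ = _ := mul_one _
  have hng1 : nm Lc g < 1 := lt_of_le_of_lt hng (pow_lt_one₀ hπ0.le hπ1 hi.ne')
  have hgp : g ^ p = π ^ (p * i) * s ^ p := by
    change (π ^ i * s) ^ p = _
    rw [mul_pow, ← pow_mul, mul_comm i p]
  have hlam : nm Lc (Lc.ζ - 1) < nm Lc Lc.π ^ i := by
    rw [hd, mul_comm p i, pow_mul] at hl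
    exact lt_of_pow_lt_pow_left₀ p (pow_nonneg hπ0.le _) hl
  have hone : nm Lc (((1 + g) ^ p : FF Lc.S₁) : Acl k Ω) = 1 := by
    push_cast
    rw [adj_nm_pow, adj_nm_one_add Lc hng1, one_pow]
  have hne : (1 + g) ^ p ≠ 0 := by
    intro h
    rw [h] at hone
    push_cast at hone
    rw [adj_nm_zero] at hone
    exact zero_ne_one hone
  let d₁ : FF Lc.S₁ := (1 + d - (1 + g) ^ p) / (1 + g) ^ p
  refine ⟨d₁, g, ?_, hng1, ?_⟩
  · have e1 : nm Lc d₁ = nm Lc ((1 + d - (1 + g) ^ p : FF Lc.S₁) : Acl k Ω) := by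
      have : d₁ * (1 + g) ^ p = 1 + d - (1 + g) ^ p := by
        change (1 + d - (1 + g) ^ p) / (1 + g) ^ p * (1 + g) ^ p = _
        exact div_mul_cancel₀ _ hne
      have h := congrArg (fun z : FF Lc.S₁ => nm Lc z) this
      rw [← h]
      rw [show ((d₁ * (1 + g) ^ p : FF Lc.S₁) : Acl k Ω)
        = (d₁ : Acl k Ω) * (((1 + g) ^ p : FF Lc.S₁) : Acl k Ω) from rfl, adj_nm_mul, hone, mul_one]
    rw [e1]
    have e2 : (1 + d - (1 + g) ^ p : FF Lc.S₁)
        = π ^ (p * i) * (u - s ^ p) - ((1 + g) ^ p - 1 - g ^ p) := by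
      rw [hgp, mul_sub, ← hdu]; ring
    rw [e2, show ((π ^ (p * i) * (u - s ^ p) - ((1 + g) ^ p - 1 - g ^ p) : FF Lc.S₁) : Acl k Ω)
      = ((π ^ (p * i) * (u - s ^ p) : FF Lc.S₁) : Acl k Ω)
        - (((1 + g) ^ p - 1 - g ^ p : FF Lc.S₁) : Acl k Ω) from rfl]
    refine lt_of_le_of_lt (adj_nm_sub Lc _ _) (max_lt ?_ ?_)
    · rw [show ((π ^ (p * i) * (u - s ^ p) : FF Lc.S₁) : Acl k Ω)
        = Lc.π ^ (p * i) * ((u - s ^ p : FF Lc.S₁) : Acl k Ω) from rfl, adj_nm_mul, adj_nm_pow, hd]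
      have h0 : 0 < nm Lc Lc.π ^ (p * i) := pow_pos hπ0 _
      calc _ < nm Lc Lc.π ^ (p * i) * 1 := by gcongr
        _ = _ := mul_one _
    · have h2 : nm Lc (((1 + g) ^ p - 1 - g ^ p : FF Lc.S₁) : Acl k Ω)
          ≤ (p : ℝ)⁻¹ * nm Lc g := by
        have := adj_binom (p := p) (Lc.ι g) hng1.le
        unfold nm
        push_cast
        rw [map_sub, map_sub, map_pow, map_pow, map_add, map_one]
        exact this
      refine lt_of_le_of_lt h2 ?_
      rw [← hCYC k Ω p Lc, hd]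
      have hp1 : p - 1 ≠ 0 := by have := hp.two_le; omega
      calc nm Lc (Lc.ζ - 1) ^ (p - 1) * nm Lc g
          ≤ nm Lc (Lc.ζ - 1) ^ (p - 1) * nm Lc Lc.π ^ i := by
            gcongr
            exact pow_nonneg (adj_nm_nonneg Lc _) _
        _ < (nm Lc Lc.π ^ i) ^ (p - 1) * nm Lc Lc.π ^ i := by
            have h0 : 0 < nm Lc Lc.π ^ i := pow_pos hπ0 _
            gcongr
            exact adj_nm_nonneg Lc _
        _ = nm Lc Lc.π ^ (p * i) := by
            rw [← pow_succ, Nat.sub_add_cancel hp.one_le, ← pow_mul, mul_comm i p]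
  · change 1 + d = (1 + (1 + d - (1 + g) ^ p) / (1 + g) ^ p) * (1 + g) ^ p
    field_simp
    ring

theorem st_ADJ (hRES : ST_RESK) (hCYC : ST_CYC) : ST_ADJ := by
  intro k Ω _ _ _ _ _ p _ Lc
  have hp : p.Prime := Fact.out
  have hπ0 : 0 < nm Lc Lc.π := Lc.posπ
  have hπ1 : nm Lc Lc.π < 1 := Lc.ltπ
  have hp0 : 0 < p := hp.pos
  have hlam0 : 0 < nm Lc (Lc.ζ - 1) := by
    rcases (adj_nm_nonneg Lc (Lc.ζ - 1)).lt_or_eq with h | h
    · exact h
    · exfalso
      have h1 := hCYC k Ω p Lc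
      rw [← h, zero_pow (by have := hp.two_le; omega)] at h1
      have : (0 : ℝ) < (p : ℝ)⁻¹ := by positivity
      linarith
  obtain ⟨J, hJ⟩ : ∃ J : ℕ, nm Lc Lc.π ^ J < nm Lc (Lc.ζ - 1) ^ p :=
    exists_pow_lt_of_lt_one (pow_pos hlam0 p) hπ1
  have key : ∀ n : ℕ, ∀ d : FF Lc.S₁, nm Lc d < 1 → nm Lc d ≤ nm Lc Lc.π ^ (J - n) →
      ∃ d' g : FF Lc.S₁, nm Lc d' < 1 ∧ nm Lc g < 1 ∧ 1 + d = (1 + d') * (1 + g) ^ p ∧
      (nm Lc d' ≤ nm Lc (Lc.ζ - 1) ^ p ∨ ∃ i : ℕ, ¬ p ∣ i ∧ nm Lc d' = nm Lc Lc.π ^ i) := by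
    intro n
    induction n with
    | zero =>
      intro d hd1 hd
      refine ⟨d, 0, hd1, ?_, ?_, Or.inl ?_⟩
      · change nm Lc (0 : Acl k Ω) < 1
        rw [adj_nm_zero]; norm_num
      · rw [add_zero, one_pow, mul_one]
      · rw [Nat.sub_zero] at hd
        exact hd.trans hJ.le
    | succ n ih =>
      intro d hd1 hd
      by_cases hle : nm Lc d ≤ nm Lc Lc.π ^ (J - n)
      · exact ih d hd1 hle
      push Not at hle
      by_cases hl : nm Lc d ≤ nm Lc (Lc.ζ - 1) ^ p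
      · refine ⟨d, 0, hd1, ?_, ?_, Or.inl hl⟩
        · change nm Lc (0 : Acl k Ω) < 1
          rw [adj_nm_zero]; norm_num
        · rw [add_zero, one_pow, mul_one]
      push Not at hl
      have hdne : (d : Acl k Ω) ≠ 0 := by
        intro h
        rw [h, adj_nm_zero] at hle
        exact absurd hle (not_lt.2 (pow_nonneg hπ0.le _))
      -- the level of `d`
      obtain ⟨j, hj⟩ := Lc.disc d d.2 hdne
      change nm Lc d = nm Lc Lc.π ^ j at hj
      have hjpos : 0 < j := by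
        by_contra hj0
        push Not at hj0
        have : 1 ≤ nm Lc Lc.π ^ j := one_le_zpow_of_nonpos₀ hπ0 hπ1.le hj0
        linarith
      obtain ⟨j, rfl⟩ := Int.eq_ofNat_of_zero_le hjpos.le
      rw [zpow_natCast] at hj
      have hjpos' : 0 < j := by exact_mod_cast hjpos
      by_cases hdvd : p ∣ j
      · obtain ⟨i, rfl⟩ := hdvd
        have hi : 0 < i := Nat.pos_of_mul_pos_left hjpos'
        obtain ⟨d₁, g, hd₁, hg, he⟩ := adj_step hRES hCYC Lc d i hi hj hl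
        -- `d₁` is deeper
        have hd₁' : nm Lc d₁ ≤ nm Lc Lc.π ^ (J - n) := by
          by_cases h0 : (d₁ : Acl k Ω) = 0
          · rw [h0, adj_nm_zero]; exact pow_nonneg hπ0.le _
          obtain ⟨j₁, hj₁⟩ := Lc.disc d₁ d₁.2 h0
          change nm Lc d₁ = nm Lc Lc.π ^ j₁ at hj₁
          rw [hj] at hle hd hd₁
          rw [hj₁, ← zpow_natCast] at hd₁
          have a1 : ((p * i : ℕ) : ℤ) < j₁ := (zpow_lt_zpow_iff_right_of_lt_one₀ hπ0 hπ1).1 hd₁
          have a2 : J - (n + 1) ≤ p * i := (pow_le_pow_iff_right_of_lt_one₀ hπ0 hπ1).1 hd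
          rw [hj₁, ← zpow_natCast]
          refine (zpow_le_zpow_iff_right_of_lt_one₀ hπ0 hπ1).2 ?_
          omega
        obtain ⟨d', g', b1, b2, b3, b4⟩ := ih d₁ (hd₁.trans hd1) hd₁'
        refine ⟨d', g' + g + g' * g, b1, ?_, ?_, b4⟩
        · change nm Lc ((g' : Acl k Ω) + g + g' * g) < 1
          refine lt_of_le_of_lt (adj_nm_add Lc _ _) (max_lt ?_ ?_)
          · exact lt_of_le_of_lt (adj_nm_add Lc _ _) (max_lt b2 hg)
          · rw [adj_nm_mul]
            calc nm Lc g' * nm Lc g ≤ 1 * nm Lc g := by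
                  gcongr
                  exact adj_nm_nonneg Lc _
              _ = nm Lc g := one_mul _
              _ < 1 := hg
        · rw [he, b3, mul_assoc, ← mul_pow]
          congr 2
          ring
      · refine ⟨d, 0, hd1, ?_, ?_, Or.inr ⟨j, hdvd, hj⟩⟩
        · change nm Lc (0 : Acl k Ω) < 1
          rw [adj_nm_zero]; norm_num
        · rw [add_zero, one_pow, mul_one]
  intro d hd
  exact key J d hd (by rw [Nat.sub_self, pow_zero]; exact hd.le)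

end Pool.Agent.Helper14.BSC
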